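import Mathlib

/-!
The moment lemma: over a field with `p ^ e` elements, the zero / nonzero pattern of a family of
linear functionals in unknowns indexed by `S` is determined by at most `|S| ^ ((p - 1) e)` of
them.
-/

namespace Pool.Agent.Helper29.MR

open Finset

variable {F : Type} [Field F] [Fintype F]

/-- The power `q - 1` of a linear form as a linear form in the moments. -/
theorem pow_moment {p e : ℕ} (hp : p.Prime) (hq : Fintype.card F = p ^ e) {E : Type}
    (S : Finset E) (h a : E → F) :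
    (∑ s ∈ S, h s * a s) ^ (Fintype.card F - 1) =
      ∑ t : Fin e → Fin (p - 1) → S, (∏ j, ∏ k, h (t j k) ^ p ^ (j : ℕ)) *
        ∏ j, ∏ k, a (t j k) ^ p ^ (j : ℕ) := by
  classical
  haveI : Fact p.Prime := ⟨hp⟩
  haveI : CharP F p := charP_of_card_eq_prime_pow hq
  haveI : ExpChar F p := ExpChar.prime hp
  have hexp : Fintype.card F - 1 = ∑ j : Fin e, p ^ (j : ℕ) * (p - 1) := by
    rw [hq, ← Finset.sum_mul, Fin.sum_univ_eq_sum_range (fun j => p ^ j) e, mul_comm]
    have := Nat.geomSum_eq hp.two_le e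
    rw [this]
    have hd : (p - 1) ∣ (p ^ e - 1) := by
      simpa using Nat.sub_dvd_pow_sub_pow p 1 e
    exact (Nat.mul_div_cancel' hd).symm
  rw [hexp, ← Finset.prod_pow_eq_pow_sum]
  have h1 : ∀ j : Fin e, (∑ s ∈ S, h s * a s) ^ (p ^ (j : ℕ) * (p - 1)) =
      ∑ u : Fin (p - 1) → S, ∏ k, (h (u k) ^ p ^ (j : ℕ) * a (u k) ^ p ^ (j : ℕ)) := by
    intro j
    rw [pow_mul, sum_pow_char_pow, ← Finset.sum_coe_sort S, Fintype.sum_pow]
    apply Finset.sum_congr rfl
    intro u _
    apply Finset.prod_congr rfl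
    intro k _
    rw [mul_pow]
  rw [Finset.prod_congr rfl fun j _ => h1 j, Finset.prod_univ_sum]
  rw [Fintype.piFinset_univ]
  apply Finset.sum_congr rfl
  intro t _
  rw [← Finset.prod_mul_distrib]
  apply Finset.prod_congr rfl
  intro j _
  rw [← Finset.prod_mul_distrib]

theorem moment {p e : ℕ} (hp : p.Prime) (hq : Fintype.card F = p ^ e) {E : Type}
    (S : Finset E) {ι : Type} [Finite ι] (H : ι → E → F) :
    ∃ T : Finset ι, T.card ≤ S.card ^ ((p - 1) * e) ∧ ∀ a a' : E → F,
      (∀ J ∈ T, (∑ s ∈ S, H J s * a s ≠ 0 ↔ ∑ s ∈ S, H J s * a' s ≠ 0)) →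
      ∀ J, (∑ s ∈ S, H J s * a s ≠ 0 ↔ ∑ s ∈ S, H J s * a' s ≠ 0) := by
  classical
  set w : ι → ((Fin e → Fin (p - 1) → S) → F) :=
    fun J t => ∏ j, ∏ k, H J (t j k) ^ p ^ (j : ℕ) with hw
  set u : (E → F) → ((Fin e → Fin (p - 1) → S) → F) :=
    fun a t => ∏ j, ∏ k, a (t j k) ^ p ^ (j : ℕ) with hu
  obtain ⟨b, hb, hspan, hli⟩ := exists_linearIndependent F (Set.range w)
  have hbfin : b.Finite := (Set.finite_range w).subset hb
  haveI : Fintype b := hbfin.fintype
  have hch : ∀ x : b, ∃ J, w J = x := fun x => hb x.2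
  choose c hc using hch
  have hcard1 : 1 < Fintype.card F := Fintype.one_lt_card
  have hne : Fintype.card F - 1 ≠ 0 := by omega
  have key : ∀ x y : F, (x ^ (Fintype.card F - 1) = y ^ (Fintype.card F - 1)) ↔
      (x ≠ 0 ↔ y ≠ 0) := by
    intro x y
    by_cases hx : x = 0
    · by_cases hy : y = 0
      · simp [hx, hy]
      · rw [FiniteField.pow_card_sub_one_eq_one y hy, hx, zero_pow hne]
        simp [hy]
    · by_cases hy : y = 0
      · rw [FiniteField.pow_card_sub_one_eq_one x hx, hy, zero_pow hne]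
        simp [hx]
      · rw [FiniteField.pow_card_sub_one_eq_one x hx, FiniteField.pow_card_sub_one_eq_one y hy]
        simp [hx, hy]
  refine ⟨Finset.univ.image c, ?_, ?_⟩
  · refine (Finset.card_image_le).trans ?_
    rw [Finset.card_univ]
    have h1 := hli.fintype_card_le_finrank
    refine h1.trans ?_
    rw [Module.finrank_fintype_fun_eq_card]
    simp only [Fintype.card_pi_const, Fintype.card_coe]
    rw [← pow_mul]
  · intro a a' hT J
    have hpair : ∀ K : ι, ∀ x : E → F, (∑ s ∈ S, H K s * x s) ^ (Fintype.card F - 1) =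
        ∑ t, w K t * u x t := by
      intro K x
      rw [pow_moment hp hq]
    rw [← key, hpair, hpair]
    have hlin : ∀ x : (Fin e → Fin (p - 1) → S) → F, x ∈ Submodule.span F (Set.range w) →
        ∑ t, x t * u a t = ∑ t, x t * u a' t := by
      rw [← hspan]
      intro x hx
      induction hx using Submodule.span_induction with
      | mem x hx =>
        have h1 := hT (c ⟨x, hx⟩) (Finset.mem_image_of_mem c (Finset.mem_univ _))
        rw [← key, hpair, hpair, hc] at h1
        exact h1
      | zero => simp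
      | add x y _ _ hx hy =>
        simp only [Pi.add_apply, add_mul, Finset.sum_add_distrib, hx, hy]
      | smul r x _ hx =>
        simp only [Pi.smul_apply, smul_eq_mul, mul_assoc, ← Finset.mul_sum, hx]
    exact hlin (w J) (Submodule.subset_span ⟨J, rfl⟩)

end Pool.Agent.Helper29.MR
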