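import Mathlib

/-!
Adaptive query strategies (decision trees) asking whether finite sets are independent.
-/

namespace Pool.Agent.Helper29.MR

/-- An adaptive query strategy: stop with an answer, or ask whether `X` is independent and
continue according to the reply. -/
inductive Strat (E : Type) (α : Type) : Type
  | stop (a : α) : Strat E α
  | ask (X : Finset E) (yes no : Strat E α) : Strat E α

namespace Strat

variable {E : Type} {α β : Type}

/-- The output of the strategy against the oracle `O`. -/
def run (O : Finset E → Bool) : Strat E α → α
  | stop a => a
  | ask X t f => if O X = true then run O t else run O f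

/-- The number of questions asked by the strategy against the oracle `O`. -/
def cost (O : Finset E → Bool) : Strat E α → ℕ
  | stop _ => 0
  | ask X t f => 1 + if O X = true then cost O t else cost O f

/-- First run `t`, then the strategy chosen by its output. -/
def bind : Strat E α → (α → Strat E β) → Strat E β
  | stop a, g => g a
  | ask X t f, g => ask X (bind t g) (bind f g)

/-- Add the fixed set `C` to every question. -/
def shift [DecidableEq E] (C : Finset E) : Strat E α → Strat E α
  | stop a => stop a
  | ask X t f => ask (X ∪ C) (shift C t) (shift C f)

theorem run_bind (O : Finset E → Bool) (t : Strat E α) (g : α → Strat E β) :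
    (t.bind g).run O = (g (t.run O)).run O := by
  induction t with
  | stop a => rfl
  | ask X t f iht ihf =>
    simp only [bind, run]
    split_ifs <;> assumption

theorem cost_bind (O : Finset E → Bool) (t : Strat E α) (g : α → Strat E β) :
    (t.bind g).cost O = t.cost O + (g (t.run O)).cost O := by
  induction t with
  | stop a => simp [bind, run, cost]
  | ask X t f iht ihf =>
    simp only [bind, run, cost]
    split_ifs
    · rw [iht]; ring
    · rw [ihf]; ring

theorem run_shift [DecidableEq E] (O : Finset E → Bool) (C : Finset E) (t : Strat E α) :
    (t.shift C).run O = t.run (fun X => O (X ∪ C)) := by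
  induction t with
  | stop a => rfl
  | ask X t f iht ihf =>
    simp only [shift, run]
    rw [iht, ihf]

theorem cost_shift [DecidableEq E] (O : Finset E → Bool) (C : Finset E) (t : Strat E α) :
    (t.shift C).cost O = t.cost (fun X => O (X ∪ C)) := by
  induction t with
  | stop a => rfl
  | ask X t f iht ihf =>
    simp only [shift, cost]
    rw [iht, ihf]

/-- Ask a fixed list of questions. -/
theorem exists_learn [DecidableEq E] (l : List (Finset E)) :
    ∃ T : Strat E (Finset E → Bool), ∀ O, T.cost O = l.length ∧ ∀ X ∈ l, T.run O X = O X := by
  induction l with
  | nil => exact ⟨stop fun _ => false, fun O => ⟨rfl, by simp⟩⟩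
  | cons Y l ih =>
    obtain ⟨T, hT⟩ := ih
    refine ⟨ask Y (T.bind fun g => stop (Function.update g Y true))
      (T.bind fun g => stop (Function.update g Y false)), fun O => ⟨?_, ?_⟩⟩
    · simp only [cost, cost_bind, (hT O).1, List.length_cons]
      split_ifs <;> omega
    · intro X hX
      simp only [run, run_bind]
      by_cases hXY : X = Y
      · subst hXY
        by_cases h : O X = true
        · simp [h]
        · simp [h]
      · have hX' : X ∈ l := by
          rcases List.mem_cons.mp hX with h | h
          · exact absurd h hXY
          · exact h
        split_ifs
        · rw [Function.update_of_ne hXY]; exact (hT O).2 X hX'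
        · rw [Function.update_of_ne hXY]; exact (hT O).2 X hX'

/-- Find the right candidate among finitely many ones with one question less than their
number. -/
theorem exists_elim (U : Finset (Finset E)) (l : List (Finset E → Bool)) (hl : l ≠ []) :
    ∃ T : Strat E (Finset E → Bool), ∀ O, T.cost O ≤ l.length - 1 ∧
      ((∃ c ∈ l, ∀ X ∈ U, c X = O X) → ∀ X ∈ U, T.run O X = O X) := by
  classical
  induction l with
  | nil => exact absurd rfl hl
  | cons c l ih =>
    by_cases hl' : l = []
    · subst hl'
      refine ⟨stop c, fun O => ⟨by simp [cost], ?_⟩⟩
      rintro ⟨c', hc', h⟩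
      have : c' = c := by simpa using hc'
      subst this
      exact h
    obtain ⟨T, hT⟩ := ih hl'
    refine ⟨T.bind fun g => if h : ∃ X ∈ U, c X ≠ g X then
      (if c h.choose = true then ask h.choose (stop c) (stop g)
        else ask h.choose (stop g) (stop c)) else stop g, fun O => ⟨?_, ?_⟩⟩
    · rw [cost_bind]
      have h1 : 0 < l.length := List.length_pos_iff.mpr hl'
      have h2 := (hT O).1
      have h3 : ∀ g : Finset E → Bool, (if h : ∃ X ∈ U, c X ≠ g X then
          (if c h.choose = true then ask h.choose (stop c) (stop g)
            else ask h.choose (stop g) (stop c)) else stop g : Strat E (Finset E → Bool)).cost O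
            ≤ 1 := by
        intro g
        split_ifs <;> simp [cost]
      have h4 := h3 (T.run O)
      simp only [List.length_cons]
      omega
    · rintro ⟨c', hc', h⟩ X hX
      rw [run_bind]
      set g := T.run O with hg
      by_cases hd : ∃ X ∈ U, c X ≠ g X
      · rw [dif_pos hd]
        obtain ⟨hY, hne⟩ := hd.choose_spec
        rcases List.mem_cons.mp hc' with hcc | hcc
        · subst hcc
          have hO : O hd.choose = c' hd.choose := (h _ hY).symm
          by_cases hct : c' hd.choose = true
          · rw [if_pos hct]
            simp only [run]
            rw [if_pos (hO.trans hct)]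
            exact h X hX
          · rw [if_neg hct]
            simp only [run]
            rw [if_neg (by rw [hO]; exact hct)]
            exact h X hX
        · have hgO := (hT O).2 ⟨c', hcc, h⟩
          have hO : O hd.choose = g hd.choose := (hgO _ hY).symm
          by_cases hct : c hd.choose = true
          · rw [if_pos hct]
            simp only [run]
            rw [if_neg (by rw [hO]; intro hh; exact hne (hct.trans hh.symm))]
            exact hgO X hX
          · rw [if_neg hct]
            simp only [run]
            have : g hd.choose = true := by
              cases hgc : g hd.choose with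
              | true => rfl
              | false =>
                exfalso
                apply hne
                rw [hgc]
                simpa using hct
            rw [if_pos (hO.trans this)]
            exact hgO X hX
      · rw [dif_neg hd]
        simp only [run]
        rcases List.mem_cons.mp hc' with hcc | hcc
        · subst hcc
          push Not at hd
          rw [← hd X hX]
          exact h X hX
        · exact (hT O).2 ⟨c', hcc, h⟩ X hX

/-- Ask all the questions of all the candidates, then find the right candidate. -/
theorem exists_combine [DecidableEq E] {ι : Type} (U : Finset (Finset E)) (l : List ι)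
    (hl : l ≠ []) (Q : ι → List (Finset E)) (m : ℕ) (hQ : ∀ D ∈ l, (Q D).length ≤ m)
    (cand : ι → (Finset E → Bool) → (Finset E → Bool)) :
    ∃ T : Strat E (Finset E → Bool), ∀ O, T.cost O ≤ l.length * m + (l.length - 1) ∧
      ((∃ D ∈ l, ∀ g : Finset E → Bool, (∀ X ∈ Q D, g X = O X) →
        ∀ X ∈ U, cand D g X = O X) → ∀ X ∈ U, T.run O X = O X) := by
  obtain ⟨T, hT⟩ := exists_learn (l.flatMap Q)
  have h : ∀ g : Finset E → Bool, ∃ S : Strat E (Finset E → Bool), ∀ O,
      S.cost O ≤ l.length - 1 ∧
      ((∃ c ∈ l.map (fun D => cand D g), ∀ X ∈ U, c X = O X) → ∀ X ∈ U, S.run O X = O X) := by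
    intro g
    have := exists_elim U (l.map fun D => cand D g) (by simpa using hl)
    simpa only [List.length_map] using this
  choose S hS using h
  refine ⟨T.bind S, fun O => ⟨?_, ?_⟩⟩
  · rw [cost_bind, (hT O).1]
    have h1 : (l.flatMap Q).length ≤ l.length * m := by
      rw [List.length_flatMap]
      calc ((l.map fun D => (Q D).length)).sum ≤ (l.map fun _ => m).sum := by
            apply List.sum_le_sum
            intro D hD
            exact hQ D hD
        _ = l.length * m := by simp
    have h2 := (hS (T.run O) O).1
    omega
  · rintro ⟨D, hD, h⟩ X hX
    rw [run_bind]
    refine (hS (T.run O) O).2 ⟨cand D (T.run O), List.mem_map.mpr ⟨D, hD, rfl⟩, ?_⟩ X hX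
    apply h
    intro Y hY
    exact (hT O).2 Y (List.mem_flatMap.mpr ⟨D, hD, hY⟩)

end Strat

end Pool.Agent.Helper29.MR
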