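import Mathlib
import Pool.Agent.Helper29.MR.Strat
import Pool.Agent.Helper29.MR.Moment

/-!
One-element extensions and coextensions of represented matroids, and the number of questions
they cost.
-/

namespace Pool.Agent.Helper29.MR

open Finset

variable {F : Type} [Field F] {E : Type} {d : ℕ}

/-- Two families of vectors of `F ^ d` are projectively equivalent: they differ by an invertible
linear map and by nonzero scalars. -/
def ProjEquiv (A A' : E → Fin d → F) : Prop :=
  ∃ (g : (Fin d → F) ≃ₗ[F] (Fin d → F)) (c : E → Fˣ), ∀ x, A' x = (c x : F) • g (A x)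

theorem ProjEquiv.refl (A : E → Fin d → F) : ProjEquiv A A :=
  ⟨LinearEquiv.refl F _, fun _ => 1, fun x => by simp⟩

theorem ProjEquiv.symm {A A' : E → Fin d → F} (h : ProjEquiv A A') : ProjEquiv A' A := by
  obtain ⟨g, c, h⟩ := h
  refine ⟨g.symm, fun x => (c x)⁻¹, fun x => ?_⟩
  rw [h x, map_smul, LinearEquiv.symm_apply_apply, smul_smul]
  simp

theorem ProjEquiv.trans {A A' A'' : E → Fin d → F} (h : ProjEquiv A A')
    (h' : ProjEquiv A' A'') : ProjEquiv A A'' := by
  obtain ⟨g, c, h⟩ := h
  obtain ⟨g', c', h'⟩ := h'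
  refine ⟨g.trans g', fun x => c' x * c x, fun x => ?_⟩
  rw [h' x, h x, map_smul, smul_smul, LinearEquiv.trans_apply]
  simp

/-- Projective equivalence as an equivalence relation on the families with property `P`. -/
def projSetoid (P : (E → Fin d → F) → Prop) : Setoid {A : E → Fin d → F // P A} where
  r A A' := ProjEquiv A.1 A'.1
  iseqv := ⟨fun _ => ProjEquiv.refl _, fun h => h.symm, fun h h' => h.trans h'⟩

/-- The number of projective equivalence classes of families with property `P`. -/
noncomputable def numClasses (P : (E → Fin d → F) → Prop) : ℕ :=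
  Nat.card (Quotient (projSetoid P))

theorem exists_list [Fintype F] [Finite E] (P : (E → Fin d → F) → Prop) :
    ∃ l : List (E → Fin d → F), l.length = numClasses P ∧ (∀ A ∈ l, P A) ∧
      ∀ A, P A → ∃ D ∈ l, ProjEquiv A D := by
  classical
  have : Finite (Quotient (projSetoid P)) := inferInstance
  have : Fintype (Quotient (projSetoid P)) := Fintype.ofFinite _
  refine ⟨(Finset.univ : Finset (Quotient (projSetoid P))).toList.map (fun x => (Quotient.out x).1),
    ?_, ?_, ?_⟩
  · rw [List.length_map, Finset.length_toList, Finset.card_univ, numClasses, Nat.card_eq_fintype_card]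
  · intro A hA
    obtain ⟨x, -, rfl⟩ := List.mem_map.mp hA
    exact (Quotient.out x).2
  · intro A hA
    refine ⟨(Quotient.out (Quotient.mk (projSetoid P) ⟨A, hA⟩)).1,
      List.mem_map.mpr ⟨Quotient.mk (projSetoid P) ⟨A, hA⟩, by simp, rfl⟩, ?_⟩
    have := Quotient.mk_out (s := projSetoid P) (⟨A, hA⟩ : {A // P A})
    exact ProjEquiv.symm this

/-- `A` represents on `S` the family of independent sets given by `h`, and vanishes off `S`. -/
def RepOn (S : Finset E) (h : Finset E → Bool) (A : E → Fin d → F) : Prop :=
  (∀ X ⊆ S, (h X = true ↔ LinearIndepOn F A (X : Set E))) ∧ ∀ x ∉ S, A x = 0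

/-- Scaling and an injective linear map do not change independence. -/
theorem indep_scale {V W : Type} [AddCommGroup V] [Module F V] [AddCommGroup W] [Module F W]
    (θ : V →ₗ[F] W) (hθ : Function.Injective θ) (A : E → V) (B : E → W) (c : E → Fˣ)
    (X : Finset E) (hB : ∀ x ∈ X, B x = (c x : F) • θ (A x)) :
    LinearIndepOn F B (X : Set E) ↔ LinearIndepOn F A (X : Set E) := by
  classical
  rw [linearIndepOn_finset_iff, linearIndepOn_finset_iff]
  constructor
  · intro h g hg i hi
    have h1 := h (fun x => g x * ((c x)⁻¹ : Fˣ)) (by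
      have : ∑ x ∈ X, (g x * ((c x)⁻¹ : Fˣ)) • B x = θ (∑ x ∈ X, g x • A x) := by
        rw [map_sum]
        apply Finset.sum_congr rfl
        intro x hx
        rw [hB x hx, map_smul, smul_smul, mul_assoc]
        simp
      rw [this, hg, map_zero]) i hi
    have h2 : (((c i)⁻¹ : Fˣ) : F) ≠ 0 := Units.ne_zero _
    exact (mul_eq_zero.mp h1).resolve_right h2
  · intro h g hg i hi
    have h1 := h (fun x => g x * (c x : F)) (by
      apply hθ
      rw [map_sum, map_zero, ← hg]
      apply Finset.sum_congr rfl
      intro x hx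
      rw [hB x hx, map_smul, smul_smul]) i hi
    exact (mul_eq_zero.mp h1).resolve_right (Units.ne_zero _)

/-- Contraction of an independent set, inside the same space. -/
theorem exists_contract [DecidableEq E] (A : E → Fin d → F) (C : Finset E)
    (hC : LinearIndepOn F A (C : Set E)) :
    ∃ π : (Fin d → F) →ₗ[F] (Fin d → F), LinearMap.ker π = Submodule.span F (A '' C) ∧
      ∀ X : Finset E, Disjoint X C →
      (LinearIndepOn F A ((X ∪ C : Finset E) : Set E) ↔
        LinearIndepOn F (fun x => π (A x)) (X : Set E)) := by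
  set W := Submodule.span F (A '' C) with hW
  obtain ⟨W', hW'⟩ := W.exists_isCompl
  set φ : ((Fin d → F) ⧸ W) →ₗ[F] (Fin d → F) :=
    W'.subtype ∘ₗ (Submodule.quotientEquivOfIsCompl W W' hW').toLinearMap with hφ
  have hφi : Function.Injective φ := by
    intro x y hxy
    simp only [hφ, LinearMap.comp_apply, LinearEquiv.coe_coe] at hxy
    exact (Submodule.quotientEquivOfIsCompl W W' hW').injective (W'.injective_subtype hxy)
  refine ⟨φ ∘ₗ W.mkQ, ?_, ?_⟩
  · rw [LinearMap.ker_comp, LinearMap.ker_eq_bot.mpr hφi]
    exact W.ker_mkQ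
  · intro X hX
    have h1 : LinearIndepOn F A ((X ∪ C : Finset E) : Set E) ↔
        LinearIndepOn F (W.mkQ ∘ A) (X : Set E) := by
      rw [hW, LinearIndepOn.quotient_iff_union hC
        (by exact_mod_cast hX.symm), Finset.coe_union, Set.union_comm]
    rw [h1]
    exact (indep_scale φ hφi (W.mkQ ∘ A) (fun x => φ (W.mkQ (A x))) (fun _ => 1) X
      (fun x _ => by simp)).symm

end Pool.Agent.Helper29.MR
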