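import Mathlib
import Pool.Agent.Helper29.MR.Lin

/-!
One-element coextension of a represented matroid: few fixed questions.
-/

namespace Pool.Agent.Helper29.MR

open Finset

variable {F : Type} [Field F] {E : Type} {d : ℕ}

/-- The coextension of `D` by `y` with row `x`. -/
def coext [DecidableEq E] (D : E → Fin d → F) (y : E) (x : E → F) : E → (Fin d → F) × F :=
  fun z => if z = y then (0, 1) else (D z, x z)

theorem indep_coext_iff [DecidableEq E] (D : E → Fin d → F) (y : E) (x : E → F) (X : Finset E)
    (hy : y ∉ X) : LinearIndepOn F (coext D y x) (X : Set E) ↔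
      ∀ l : E → F, ∑ i ∈ X, l i • D i = 0 → ∑ i ∈ X, l i * x i = 0 → ∀ i ∈ X, l i = 0 := by
  rw [linearIndepOn_finset_iff]
  have hsum : ∀ l : E → F, ∑ i ∈ X, l i • coext D y x i =
      (∑ i ∈ X, l i • D i, ∑ i ∈ X, l i * x i) := by
    intro l
    rw [Prod.ext_iff, Prod.fst_sum, Prod.snd_sum]
    constructor
    · apply Finset.sum_congr rfl
      intro i hi
      have : i ≠ y := by rintro rfl; exact hy hi
      simp [coext, this]
    · apply Finset.sum_congr rfl
      intro i hi
      have : i ≠ y := by rintro rfl; exact hy hi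
      simp [coext, this]
  constructor
  · intro h l h1 h2
    apply h l
    rw [hsum, h1, h2]
    rfl
  · intro h l hl
    rw [hsum, Prod.mk_eq_zero] at hl
    exact h l hl.1 hl.2

theorem indep_coext_insert [DecidableEq E] (D : E → Fin d → F) (y : E) (x : E → F)
    (X : Finset E) (hy : y ∉ X) :
    LinearIndepOn F (coext D y x) ((insert y X : Finset E) : Set E) ↔
      LinearIndepOn F D (X : Set E) := by
  rw [linearIndepOn_finset_iff, linearIndepOn_finset_iff]
  have hsum : ∀ l : E → F, ∑ i ∈ insert y X, l i • coext D y x i =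
      (∑ i ∈ X, l i • D i, l y + ∑ i ∈ X, l i * x i) := by
    intro l
    rw [Finset.sum_insert hy, Prod.ext_iff, Prod.fst_add, Prod.snd_add, Prod.fst_sum,
      Prod.snd_sum]
    constructor
    · have h0 : (l y • coext D y x y).1 = 0 := by simp [coext]
      rw [h0, zero_add]
      apply Finset.sum_congr rfl
      intro i hi
      have : i ≠ y := by rintro rfl; exact hy hi
      simp [coext, this]
    · have h0 : (l y • coext D y x y).2 = l y := by simp [coext]
      rw [h0]
      congr 1
      apply Finset.sum_congr rfl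
      intro i hi
      have : i ≠ y := by rintro rfl; exact hy hi
      simp [coext, this]
  constructor
  · intro h l hl i hi
    have hiy : i ≠ y := by rintro rfl; exact hy hi
    have h1 := h (Function.update l y (-∑ i ∈ X, l i * x i)) (by
      rw [hsum, Function.update_self, Prod.mk_eq_zero]
      constructor
      · rw [← hl]
        apply Finset.sum_congr rfl
        intro j hj
        rw [Function.update_of_ne (by rintro rfl; exact hy hj)]
      · rw [neg_add_eq_zero]
        apply Finset.sum_congr rfl
        intro j hj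
        rw [Function.update_of_ne (by rintro rfl; exact hy hj)]) i
      (Finset.mem_insert_of_mem hi)
    rwa [Function.update_of_ne hiy] at h1
  · intro h l hl
    rw [hsum, Prod.mk_eq_zero] at hl
    have h1 := h l hl.1
    intro i hi
    rcases Finset.mem_insert.mp hi with rfl | hi
    · have h2 : ∑ j ∈ X, l j * x j = 0 := by
        apply Finset.sum_eq_zero
        intro j hj
        rw [h1 j hj, zero_mul]
      rw [h2, add_zero] at hl
      exact hl.2
    · exact h1 i hi

/-- `C` is a circuit of `D` in `S` and `c` is the linear relation supported on it. -/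
def IsCirc [DecidableEq E] (S : Finset E) (D : E → Fin d → F) (C : Finset E) (c : E → F) :
    Prop :=
  C ⊆ S ∧ C.Nonempty ∧ (∀ s ∈ C, c s ≠ 0) ∧ (∀ s, s ∉ C → c s = 0) ∧
    ∑ s ∈ C, c s • D s = 0 ∧ ∀ s ∈ C, LinearIndepOn F D ((C.erase s : Finset E) : Set E)

theorem circ_iff [DecidableEq E] (S : Finset E) (y : E) (hy : y ∉ S) (D : E → Fin d → F)
    (C : Finset E) (c : E → F) (h : IsCirc S D C c) (x : E → F) :
    LinearIndepOn F (coext D y x) (C : Set E) ↔ ∑ s ∈ S, c s * x s ≠ 0 := by
  obtain ⟨hCS, hne, hc1, hc2, hc3, hc4⟩ := h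
  have hyC : y ∉ C := fun h => hy (hCS h)
  have hsub : ∑ s ∈ S, c s * x s = ∑ s ∈ C, c s * x s := by
    symm
    apply Finset.sum_subset hCS
    intro s _ hs
    rw [hc2 s hs, zero_mul]
  rw [hsub, indep_coext_iff D y x C hyC]
  constructor
  · intro h h0
    obtain ⟨i, hi⟩ := hne
    exact hc1 i hi (h c hc3 h0 i hi)
  · intro hcx l h1 h2 i hi
    by_contra hli
    have h3 : ∀ j ∈ C.erase i, l i * c j - c i * l j = 0 := by
      have := linearIndepOn_finset_iff.mp (hc4 i hi) (fun j => l i * c j - c i * l j) (by
        have h4 : ∑ j ∈ C.erase i, (l i * c j - c i * l j) • D j =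
            ∑ j ∈ C, (l i * c j - c i * l j) • D j := by
          apply Finset.sum_subset (Finset.erase_subset _ _)
          intro j hj hj'
          have : j = i := by
            by_contra hne
            exact hj' (Finset.mem_erase.mpr ⟨hne, hj⟩)
          subst this
          rw [mul_comm, sub_self, zero_smul]
        rw [h4]
        have h5 : ∑ j ∈ C, (l i * c j - c i * l j) • D j =
            l i • ∑ j ∈ C, c j • D j - c i • ∑ j ∈ C, l j • D j := by
          rw [Finset.smul_sum, Finset.smul_sum, ← Finset.sum_sub_distrib]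
          apply Finset.sum_congr rfl
          intro j _
          rw [sub_smul, mul_smul, mul_smul]
        rw [h5, hc3, h1, smul_zero, smul_zero, sub_zero])
      exact this
    have h6 : l i * ∑ j ∈ C, c j * x j - c i * ∑ j ∈ C, l j * x j = 0 := by
      rw [Finset.mul_sum, Finset.mul_sum, ← Finset.sum_sub_distrib]
      apply Finset.sum_eq_zero
      intro j hj
      by_cases hji : j = i
      · subst hji; ring
      · have := h3 j (Finset.mem_erase.mpr ⟨hji, hj⟩)
        calc l i * (c j * x j) - c i * (l j * x j) = (l i * c j - c i * l j) * x j := by ring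
          _ = 0 := by rw [this, zero_mul]
    rw [h2, mul_zero, sub_zero] at h6
    exact (mul_ne_zero hli hcx) h6

theorem indep_of_circ [DecidableEq E] (S : Finset E) (y : E) (hy : y ∉ S) (D : E → Fin d → F)
    (x x' : E → F)
    (h : ∀ C c, IsCirc S D C c → (∑ s ∈ S, c s * x s ≠ 0 ↔ ∑ s ∈ S, c s * x' s ≠ 0))
    (X : Finset E) (hX : X ⊆ S) (hi : LinearIndepOn F (coext D y x) (X : Set E)) :
    LinearIndepOn F (coext D y x') (X : Set E) := by
  classical
  have hyX : y ∉ X := fun h => hy (hX h)
  rw [indep_coext_iff D y _ X hyX] at hi ⊢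
  intro l h1 h2
  by_contra hcon
  push Not at hcon
  obtain ⟨i0, hi0, hli0⟩ := hcon
  set C := X.filter (fun s => l s ≠ 0) with hC
  set c : E → F := fun s => if s ∈ C then l s else 0 with hc
  have hβ : ∑ i ∈ X, l i * x i ≠ 0 := fun h0 => hli0 (hi l h1 h0 i0 hi0)
  have hCX : C ⊆ X := Finset.filter_subset _ _
  have hcl : ∀ s ∈ X, c s = l s := by
    intro s hs
    by_cases hls : l s = 0
    · have : s ∉ C := fun h => (Finset.mem_filter.mp h).2 hls
      simp only [hc, if_neg this, hls]
    · have : s ∈ C := Finset.mem_filter.mpr ⟨hs, hls⟩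
      simp only [hc, if_pos this]
  have hcirc : IsCirc S D C c := by
    refine ⟨hCX.trans hX, ⟨i0, Finset.mem_filter.mpr ⟨hi0, hli0⟩⟩, ?_, ?_, ?_, ?_⟩
    · intro s hs
      rw [hcl s (hCX hs)]
      exact (Finset.mem_filter.mp hs).2
    · intro s hs
      simp only [hc, if_neg hs]
    · rw [← h1]
      rw [Finset.sum_subset hCX (f := fun s => c s • D s)]
      · apply Finset.sum_congr rfl
        intro s hs
        rw [hcl s hs]
      · intro s _ hs
        simp only [hc, if_neg hs, zero_smul]
    · intro s hs
      rw [linearIndepOn_finset_iff]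
      intro m hm
      set m' : E → F := fun j => if j ∈ C.erase s then m j else 0 with hm'
      have hsubX : C.erase s ⊆ X := (Finset.erase_subset _ _).trans hCX
      have hm1 : ∑ j ∈ X, m' j • D j = 0 := by
        rw [← hm]
        symm
        rw [← Finset.sum_subset hsubX (f := fun j => m' j • D j)]
        · apply Finset.sum_congr rfl
          intro j hj
          simp only [hm', if_pos hj]
        · intro j _ hj
          simp only [hm', if_neg hj, zero_smul]
      have hm's : m' s = 0 := by simp [hm']
      have h3 := hi (fun j => (∑ i ∈ X, l i * x i) * m' j - (∑ i ∈ X, m' i * x i) * l j) (by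
        have : ∑ j ∈ X, ((∑ i ∈ X, l i * x i) * m' j - (∑ i ∈ X, m' i * x i) * l j) • D j =
            (∑ i ∈ X, l i * x i) • ∑ j ∈ X, m' j • D j -
              (∑ i ∈ X, m' i * x i) • ∑ j ∈ X, l j • D j := by
          rw [Finset.smul_sum, Finset.smul_sum, ← Finset.sum_sub_distrib]
          apply Finset.sum_congr rfl
          intro j _
          rw [sub_smul, mul_smul, mul_smul]
        rw [this, hm1, h1, smul_zero, smul_zero, sub_zero]) (by
        have : ∑ j ∈ X, ((∑ i ∈ X, l i * x i) * m' j - (∑ i ∈ X, m' i * x i) * l j) * x j =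
            (∑ i ∈ X, l i * x i) * ∑ j ∈ X, m' j * x j -
              (∑ i ∈ X, m' i * x i) * ∑ j ∈ X, l j * x j := by
          rw [Finset.mul_sum (s := X) (f := fun j => m' j * x j),
            Finset.mul_sum (s := X) (f := fun j => l j * x j), ← Finset.sum_sub_distrib]
          apply Finset.sum_congr rfl
          intro j _
          ring
        rw [this, mul_comm, sub_self])
      have h4 := h3 s (hCX hs)
      rw [hm's, mul_zero, zero_sub, neg_eq_zero] at h4
      have h5 : ∑ i ∈ X, m' i * x i = 0 :=
        (mul_eq_zero.mp h4).resolve_right (Finset.mem_filter.mp hs).2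
      intro j hj
      have h6 := h3 j (hsubX hj)
      rw [h5, zero_mul, sub_zero] at h6
      have h7 := (mul_eq_zero.mp h6).resolve_left hβ
      simpa only [hm', if_pos hj] using h7
  have hsumS : ∀ z : E → F, ∑ s ∈ S, c s * z s = ∑ s ∈ X, l s * z s := by
    intro z
    rw [← Finset.sum_subset hX (f := fun s => c s * z s)]
    · apply Finset.sum_congr rfl
      intro s hs
      rw [hcl s hs]
    · intro s _ hs
      have : s ∉ C := fun h => hs (hCX h)
      simp only [hc, if_neg this, zero_mul]
  have h8 := h C c hcirc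
  rw [hsumS, hsumS] at h8
  exact h8.mp hβ h2

theorem coext_one [Fintype F] [Fintype E] [DecidableEq E] {p e : ℕ} (hp : p.Prime)
    (hq : Fintype.card F = p ^ e) (S : Finset E) (y : E) (hy : y ∉ S) (D : E → Fin d → F) :
    ∃ (Q : List (Finset E)) (cand : (Finset E → Bool) → (Finset E → Bool)),
      Q.length ≤ S.card ^ ((p - 1) * e) ∧
      ∀ (o : Finset E → Bool) (x : E → F),
        (∀ X ⊆ insert y S, (o X = true ↔ LinearIndepOn F (coext D y x) (X : Set E))) →
        ∀ g : Finset E → Bool, (∀ X ∈ Q, g X = o X) → ∀ X ⊆ insert y S, cand g X = o X := by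
  classical
  obtain ⟨T, hT, hTm⟩ := moment hp hq S
    (fun (P : {P : Finset E × (E → F) // IsCirc S D P.1 P.2}) s => P.1.2 s)
  set good : (Finset E → Bool) → (E → F) → Prop := fun g a => ∀ P ∈ T,
    (g P.1.1 = true ↔ ∑ s ∈ S, P.1.2 s * a s ≠ 0) with hgood
  refine ⟨T.toList.map fun P => P.1.1,
    fun g X => if h : ∃ a, good g a then
      decide (LinearIndepOn F (coext D y h.choose) (X : Set E)) else false, ?_, ?_⟩
  · rw [List.length_map, Finset.length_toList]
    exact hT
  · intro o x ho g hg X hX
    have hoP : ∀ P : {P : Finset E × (E → F) // IsCirc S D P.1 P.2},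
        (o P.1.1 = true ↔ ∑ s ∈ S, P.1.2 s * x s ≠ 0) := by
      intro P
      rw [ho _ (P.2.1.trans (Finset.subset_insert _ _)),
        circ_iff S y hy D P.1.1 P.1.2 P.2 x]
    have hgx : good g x := by
      intro P hP
      rw [hg _ (List.mem_map.mpr ⟨P, by simpa using hP, rfl⟩), hoP P]
    have hex : ∃ a, good g a := ⟨x, hgx⟩
    beta_reduce
    rw [dif_pos hex]
    set x' := hex.choose with hx'
    have hgx' : good g x' := hex.choose_spec
    have hall : ∀ C c, IsCirc S D C c →
        (∑ s ∈ S, c s * x' s ≠ 0 ↔ ∑ s ∈ S, c s * x s ≠ 0) := by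
      intro C c hCc
      exact hTm x' x (fun P hP => (hgx' P hP).symm.trans (hgx P hP)) ⟨(C, c), hCc⟩
    have hXX : LinearIndepOn F (coext D y x') (X : Set E) ↔
        LinearIndepOn F (coext D y x) (X : Set E) := by
      by_cases hyX : y ∈ X
      · obtain ⟨X', hX'⟩ : ∃ X', X' = X.erase y := ⟨_, rfl⟩
        have hXi : X = insert y X' := by rw [hX', Finset.insert_erase hyX]
        have hyX' : y ∉ X' := by rw [hX']; simp
        rw [hXi, indep_coext_insert D y x' X' hyX', indep_coext_insert D y x X' hyX']
      · have hXS : X ⊆ S := fun s hs =>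
          (Finset.mem_insert.mp (hX hs)).resolve_left (by rintro rfl; exact hyX hs)
        exact ⟨indep_of_circ S y hy D x' x hall X hXS,
          indep_of_circ S y hy D x x' (fun C c h => (hall C c h).symm) X hXS⟩
    have h1 := ho X hX
    rw [← hXX] at h1
    by_cases h2 : LinearIndepOn F (coext D y x') (X : Set E)
    · rw [h1.mpr h2]
      exact decide_eq_true h2
    · have h3 : o X ≠ true := fun h => h2 (h1.mp h)
      rw [Bool.eq_false_of_not_eq_true h3]
      exact decide_eq_false h2

end Pool.Agent.Helper29.MR
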