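import Mathlib
import Pool.Agent.Helper29.MR.Lin

/-!
One-element extension of a represented matroid: few fixed questions.
-/

namespace Pool.Agent.Helper29.MR

open Finset

variable {F : Type} [Field F] {E : Type} {d : ℕ}

omit [Field F] in
theorem image_update [DecidableEq E] (D : E → Fin d → F) (y : E) (v : Fin d → F) (J : Finset E)
    (hy : y ∉ J) : Function.update D y v '' (J : Set E) = D '' (J : Set E) := by
  apply Set.image_congr
  intro x hx
  rw [Function.update_of_ne]
  rintro rfl
  exact hy (by exact_mod_cast hx)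

theorem indep_update [DecidableEq E] (D : E → Fin d → F) (y : E) (v : Fin d → F) (J : Finset E)
    (hy : y ∉ J) : LinearIndepOn F (Function.update D y v) (J : Set E) ↔
      LinearIndepOn F D (J : Set E) := by
  apply linearIndepOn_congr
  intro x hx
  rw [Function.update_of_ne]
  rintro rfl
  exact hy (by exact_mod_cast hx)

theorem indep_update_insert [DecidableEq E] (D : E → Fin d → F) (y : E) (v : Fin d → F)
    (J : Finset E) (hy : y ∉ J) :
    LinearIndepOn F (Function.update D y v) ((insert y J : Finset E) : Set E) ↔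
      LinearIndepOn F D (J : Set E) ∧ v ∉ Submodule.span F (D '' (J : Set E)) := by
  rw [Finset.coe_insert, linearIndepOn_insert (by exact_mod_cast hy), Function.update_self,
    image_update D y v J hy]
  exact and_congr (indep_update D y v J hy) Iff.rfl

/-- The sets whose span is a hyperplane of the span of `D` on `S`. -/
def IsHyp (S : Finset E) (D : E → Fin d → F) (J : Finset E) : Prop :=
  J ⊆ S ∧ LinearIndepOn F D (J : Set E) ∧
    ∃ w, w ∉ Submodule.span F (D '' (J : Set E)) ∧
      ∀ u ∈ Submodule.span F (D '' (S : Set E)), ∃ c : F,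
        u - c • w ∈ Submodule.span F (D '' (J : Set E))

theorem exists_hyper [DecidableEq E] (S : Finset E) (y : E) (hy : y ∉ S) (D : E → Fin d → F)
    (v : Fin d → F) (X : Finset E) (hXS : X ⊆ S) (hX : LinearIndepOn F D (X : Set E))
    (hvX : v ∉ Submodule.span F (D '' (X : Set E))) :
    ∃ J, X ⊆ J ∧ v ∉ Submodule.span F (D '' (J : Set E)) ∧ IsHyp S D J := by
  classical
  have hyX : y ∉ X := fun h => hy (hXS h)
  have h0 := (indep_update_insert D y v X hyX).mpr ⟨hX, hvX⟩
  obtain ⟨b, hb1, hb2, hb3, hb4⟩ := exists_linearIndepOn_extension h0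
    (show ((insert y X : Finset E) : Set E) ⊆ ((insert y S : Finset E) : Set E) by
      exact_mod_cast Finset.insert_subset_insert y hXS)
  set J := S.filter (fun x => x ∈ b) with hJ
  have hyJ : y ∉ J := fun h => hy (Finset.mem_filter.mp h).1
  have hbJ : b = ((insert y J : Finset E) : Set E) := by
    ext x
    constructor
    · intro hx
      have := hb1 hx
      rw [Finset.mem_coe, Finset.mem_insert] at this ⊢
      rcases this with h | h
      · exact Or.inl h
      · exact Or.inr (Finset.mem_filter.mpr ⟨h, hx⟩)
    · intro hx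
      rw [Finset.mem_coe, Finset.mem_insert] at hx
      rcases hx with h | h
      · subst h
        exact hb2 (by simp)
      · exact (Finset.mem_filter.mp h).2
  rw [hbJ, indep_update_insert D y v J hyJ] at hb4
  refine ⟨J, ?_, hb4.2, Finset.filter_subset _ _, hb4.1, v, hb4.2, ?_⟩
  · intro x hx
    refine Finset.mem_filter.mpr ⟨hXS hx, hb2 ?_⟩
    rw [Finset.mem_coe]
    exact Finset.mem_insert_of_mem hx
  · intro u hu
    have h1 : u ∈ Submodule.span F (insert v (D '' (J : Set E))) := by
      have h2 : D '' (S : Set E) ⊆ Submodule.span F (insert v (D '' (J : Set E))) := by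
        rintro _ ⟨x, hx, rfl⟩
        have h3 := hb3 ⟨x, (show x ∈ ((insert y S : Finset E) : Set E) by
          rw [Finset.mem_coe]; exact Finset.mem_insert_of_mem (by exact_mod_cast hx)), rfl⟩
        rw [Function.update_of_ne (by rintro rfl; exact hy (by exact_mod_cast hx)), hbJ,
          Finset.coe_insert, Set.image_insert_eq, Function.update_self,
          image_update D y v J hyJ] at h3
        exact h3
      exact (Submodule.span_le.mpr h2) hu
    obtain ⟨c, z, hz, hcz⟩ := Submodule.mem_span_insert.mp h1
    refine ⟨c, ?_⟩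
    rw [hcz]
    simpa using hz

/-- The functional of a hyperplane. -/
theorem exists_functional (S : Finset E) (D : E → Fin d → F) (J : Finset E)
    (hJ : IsHyp S D J) :
    ∃ f : (Fin d → F) →ₗ[F] F, ∀ u ∈ Submodule.span F (D '' (S : Set E)),
      (f u ≠ 0 ↔ u ∉ Submodule.span F (D '' (J : Set E))) := by
  obtain ⟨-, -, w, hw, h⟩ := hJ
  obtain ⟨f, hf1, hf2⟩ := Submodule.exists_le_ker_of_notMem hw
  refine ⟨f, fun u hu => ?_⟩
  obtain ⟨c, hc⟩ := h u hu
  constructor
  · intro h1 h2
    exact h1 (LinearMap.mem_ker.mp (hf2 h2))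
  · intro h1 h2
    have h3 : f (u - c • w) = 0 := LinearMap.mem_ker.mp (hf2 hc)
    rw [map_sub, h2, map_smul, zero_sub, neg_eq_zero, smul_eq_mul] at h3
    have h4 : c = 0 := (mul_eq_zero.mp h3).resolve_right hf1
    rw [h4, zero_smul, sub_zero] at hc
    exact h1 hc

theorem ext_one [Fintype F] [Fintype E] [DecidableEq E] {p e : ℕ} (hp : p.Prime)
    (hq : Fintype.card F = p ^ e) (S : Finset E) (y : E) (hy : y ∉ S) (D : E → Fin d → F) :
    ∃ (Q : List (Finset E)) (cand : (Finset E → Bool) → (Finset E → Bool)),
      Q.length ≤ S.card ^ ((p - 1) * e) ∧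
      ∀ (o : Finset E → Bool) (v : Fin d → F), v ∈ Submodule.span F (D '' (S : Set E)) →
        (∀ X ⊆ insert y S, (o X = true ↔
          LinearIndepOn F (Function.update D y v) (X : Set E))) →
        ∀ g : Finset E → Bool, (∀ X ∈ Q, g X = o X) → ∀ X ⊆ insert y S, cand g X = o X := by
  classical
  have hf : ∀ J : {J : Finset E // IsHyp S D J}, ∃ f : (Fin d → F) →ₗ[F] F,
      ∀ u ∈ Submodule.span F (D '' (S : Set E)),
      (f u ≠ 0 ↔ u ∉ Submodule.span F (D '' (J.1 : Set E))) :=
    fun J => exists_functional S D J.1 J.2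
  choose f hf using hf
  obtain ⟨T, hT, hTm⟩ := moment hp hq S (fun (J : {J : Finset E // IsHyp S D J}) s => f J (D s))
  have hval : ∀ (J : {J : Finset E // IsHyp S D J}) (a : E → F),
      (∑ s ∈ S, f J (D s) * a s ≠ 0 ↔
        ∑ s ∈ S, a s • D s ∉ Submodule.span F (D '' (J.1 : Set E))) := by
    intro J a
    rw [← hf J (∑ s ∈ S, a s • D s) (Submodule.sum_mem _ fun s hs => Submodule.smul_mem _ _
      (Submodule.subset_span ⟨s, by exact_mod_cast hs, rfl⟩)), map_sum]
    apply not_congr
    rw [Finset.sum_congr rfl fun s _ => ?_]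
    rw [map_smul, smul_eq_mul, mul_comm]
  set good : (Finset E → Bool) → (E → F) → Prop := fun g a => ∀ J ∈ T,
    (g (insert y J.1) = true ↔
      ∑ s ∈ S, a s • D s ∉ Submodule.span F (D '' (J.1 : Set E))) with hgood
  refine ⟨T.toList.map fun J => insert y J.1,
    fun g X => if h : ∃ a, good g a then
      decide (LinearIndepOn F (Function.update D y (∑ s ∈ S, h.choose s • D s)) (X : Set E))
      else false, ?_, ?_⟩
  · rw [List.length_map, Finset.length_toList]
    exact hT
  · intro o v hv ho g hg X hX
    obtain ⟨a, ha⟩ := (Submodule.mem_span_image_finset_iff_exists_fun' F).mp hv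
    have hyJ : ∀ J : Finset E, J ⊆ S → y ∉ J := fun J hJ h => hy (hJ h)
    have hoJ : ∀ J : {J : Finset E // IsHyp S D J}, (o (insert y J.1) = true ↔
        v ∉ Submodule.span F (D '' (J.1 : Set E))) := by
      intro J
      rw [ho _ (Finset.insert_subset_insert y J.2.1), indep_update_insert D y v J.1
        (hyJ _ J.2.1), and_iff_right J.2.2.1]
    have hga : good g a := by
      intro J hJ
      rw [hg _ (List.mem_map.mpr ⟨J, by simpa using hJ, rfl⟩), hoJ J, ha]
    have hex : ∃ a, good g a := ⟨a, hga⟩
    beta_reduce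
    rw [dif_pos hex]
    set a' := hex.choose with ha'
    have hga' : good g a' := hex.choose_spec
    have hall : ∀ J : {J : Finset E // IsHyp S D J},
        (∑ s ∈ S, a' s • D s ∉ Submodule.span F (D '' (J.1 : Set E)) ↔
          v ∉ Submodule.span F (D '' (J.1 : Set E))) := by
      intro J
      rw [← ha, ← hval, ← hval]
      refine hTm a' a (fun J hJ => ?_) J
      rw [hval, hval]
      exact (hga' J hJ).symm.trans (hga J hJ)
    have hspan' : ∑ s ∈ S, a' s • D s ∈ Submodule.span F (D '' (S : Set E)) :=
      Submodule.sum_mem _ fun s hs => Submodule.smul_mem _ _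
        (Submodule.subset_span ⟨s, by exact_mod_cast hs, rfl⟩)
    set v' := ∑ s ∈ S, a' s • D s with hv'
    have hXX : LinearIndepOn F (Function.update D y v') (X : Set E) ↔
        LinearIndepOn F (Function.update D y v) (X : Set E) := by
      by_cases hyX : y ∈ X
      · obtain ⟨X', hX'⟩ : ∃ X', X' = X.erase y := ⟨_, rfl⟩
        have hXi : X = insert y X' := by rw [hX', Finset.insert_erase hyX]
        have hyX' : y ∉ X' := by rw [hX']; simp
        have hX'S : X' ⊆ S := by
          rw [hX']
          intro x hx
          obtain ⟨hx1, hx2⟩ := Finset.mem_erase.mp hx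
          exact (Finset.mem_insert.mp (hX hx2)).resolve_left hx1
        rw [hXi, indep_update_insert D y v' X' hyX', indep_update_insert D y v X' hyX']
        apply and_congr_right
        intro hind
        have main : ∀ u u' : Fin d → F,
            (∀ J : {J : Finset E // IsHyp S D J},
              (u ∉ Submodule.span F (D '' (J.1 : Set E)) ↔
                u' ∉ Submodule.span F (D '' (J.1 : Set E)))) →
            u ∉ Submodule.span F (D '' (X' : Set E)) →
            u' ∉ Submodule.span F (D '' (X' : Set E)) := by
          intro u u' huu hu hu'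
          obtain ⟨J, hJ1, hJ2, hJ3⟩ := exists_hyper S y hy D u X' hX'S hind hu
          refine (huu ⟨J, hJ3⟩).mp hJ2 ?_
          exact Submodule.span_mono (Set.image_mono (by exact_mod_cast hJ1)) hu'
        exact ⟨main v' v hall, main v v' fun J => (hall J).symm⟩
      · rw [indep_update D y v' X hyX, indep_update D y v X hyX]
    have h1 := ho X hX
    rw [← hXX] at h1
    by_cases h2 : LinearIndepOn F (Function.update D y v') (X : Set E)
    · rw [h1.mpr h2]
      exact decide_eq_true h2
    · have h3 : o X ≠ true := fun h => h2 (h1.mp h)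
      rw [Bool.eq_false_of_not_eq_true h3]
      exact decide_eq_false h2

end Pool.Agent.Helper29.MR
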