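import Mathlib
import Pool.Agent.Helper29.MR.Ext
import Pool.Agent.Helper29.MR.Coext

/-!
The cost of one deletion step and of one contraction step, and the chain of minors.
-/

namespace Pool.Agent.Helper29.MR

open Finset

variable {F : Type} [Field F] {E : Type} {d : ℕ}

theorem bool_eq {a b : Bool} (h : a = true ↔ b = true) : a = b := Bool.eq_iff_iff.mpr h

theorem repOn_restrict [DecidableEq E] (S : Finset E) (h : Finset E → Bool) (A : E → Fin d → F)
    (hA : ∀ X ⊆ S, (h X = true ↔ LinearIndepOn F A (X : Set E))) :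
    RepOn S h (fun x => if x ∈ S then A x else 0) := by
  refine ⟨fun X hX => ?_, fun x hx => by simp [hx]⟩
  rw [hA X hX]
  apply linearIndepOn_congr
  intro x hx
  have : x ∈ S := hX (by exact_mod_cast hx)
  simp [this]

theorem step_del [Fintype F] [Fintype E] [DecidableEq E] {p e : ℕ} (hp : p.Prime)
    (hq : Fintype.card F = p ^ e) (d : ℕ) (S : Finset E) (y : E) (hy : y ∉ S)
    (h : Finset E → Bool) :
    ∃ T : Strat E (Finset E → Bool), ∀ (o : Finset E → Bool) (A : E → Fin d → F),
      (∀ X ⊆ insert y S, (o X = true ↔ LinearIndepOn F A (X : Set E))) →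
      (∀ X ⊆ S, o X = h X) →
      T.cost o ≤ numClasses (fun D : E → Fin d → F => RepOn S h D) *
        (1 + S.card ^ ((p - 1) * e)) ∧
      ∀ X ⊆ insert y S, T.run o X = o X := by
  classical
  obtain ⟨l, hl1, hl2, hl3⟩ := exists_list (fun D : E → Fin d → F => RepOn S h D)
  by_cases hl : l = []
  · refine ⟨Strat.stop fun _ => true, fun o A hA ho => ?_⟩
    exfalso
    obtain ⟨D, hD, -⟩ := hl3 _ (repOn_restrict S h A fun X hX => by
      rw [← ho X hX, hA X (hX.trans (Finset.subset_insert _ _))])
    rw [hl] at hD
    simp at hD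
  obtain ⟨D0, hD0⟩ := List.exists_mem_of_ne_nil l hl
  obtain ⟨b, hb1, -, hb3, hb4⟩ := exists_linearIndepOn_extension
    (linearIndepOn_empty F D0) (Set.empty_subset (S : Set E))
  set B0 := S.filter (fun x => x ∈ b) with hB0
  have hbB : b = (B0 : Set E) := by
    ext x
    rw [Finset.mem_coe, hB0, Finset.mem_filter]
    exact ⟨fun hx => ⟨by exact_mod_cast hb1 hx, hx⟩, fun hx => hx.2⟩
  have hB0S : B0 ⊆ S := Finset.filter_subset _ _
  rw [hbB] at hb3 hb4
  have hhB0 : h B0 = true := ((hl2 D0 hD0).1 B0 hB0S).mpr hb4
  have hhx : ∀ x ∈ S, x ∉ B0 → ¬ h (insert x B0) = true := by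
    intro x hx hxB hh
    rw [(hl2 D0 hD0).1 _ (Finset.insert_subset hx hB0S), Finset.coe_insert,
      linearIndepOn_insert (by exact_mod_cast hxB)] at hh
    exact hh.2 (hb3 ⟨x, by exact_mod_cast hx, rfl⟩)
  choose Q cand hQ hcand using fun D : E → Fin d → F => ext_one hp hq S y hy D
  obtain ⟨T2, hT2⟩ := Strat.exists_combine (insert y S).powerset l hl Q (S.card ^ ((p - 1) * e))
    (fun D _ => hQ D) cand
  have hlpos : 0 < l.length := List.length_pos_iff.mpr hl
  refine ⟨Strat.ask (insert y B0) (Strat.stop fun X => h (X.erase y)) T2,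
    fun o A hA ho => ⟨?_, ?_⟩⟩
  · rw [← hl1]
    have h1 := (hT2 o).1
    simp only [Strat.cost]
    have h2 : l.length * (1 + S.card ^ ((p - 1) * e)) =
        l.length * S.card ^ ((p - 1) * e) + l.length := by ring
    split_ifs
    · omega
    · omega
  · have hyB0 : y ∉ B0 := fun h => hy (hB0S h)
    have hLB0 : LinearIndepOn F A (B0 : Set E) := by
      rw [← hA B0 (hB0S.trans (Finset.subset_insert _ _)), ho B0 hB0S]
      exact hhB0
    have hspan : Submodule.span F (A '' (S : Set E)) ≤ Submodule.span F (A '' (B0 : Set E)) := by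
      rw [Submodule.span_le]
      rintro _ ⟨x, hx, rfl⟩
      by_cases hxB : x ∈ B0
      · exact Submodule.subset_span ⟨x, by exact_mod_cast hxB, rfl⟩
      · have h1 := hhx x (by exact_mod_cast hx) hxB
        rw [← ho _ (Finset.insert_subset (by exact_mod_cast hx) hB0S),
          hA _ ((Finset.insert_subset (by exact_mod_cast hx) hB0S).trans
            (Finset.subset_insert _ _)), Finset.coe_insert,
          linearIndepOn_insert (by exact_mod_cast hxB), not_and_not_right] at h1
        exact h1 hLB0
    have hquery : o (insert y B0) = true ↔ A y ∉ Submodule.span F (A '' (B0 : Set E)) := by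
      rw [hA _ (Finset.insert_subset_insert y hB0S), Finset.coe_insert,
        linearIndepOn_insert (by exact_mod_cast hyB0), and_iff_right hLB0]
    intro X hX
    simp only [Strat.run]
    by_cases hcase : o (insert y B0) = true
    · rw [if_pos hcase]
      have hyn := hquery.mp hcase
      by_cases hyX : y ∈ X
      · have hX'S : X.erase y ⊆ S := by
          intro x hx
          obtain ⟨hx1, hx2⟩ := Finset.mem_erase.mp hx
          exact (Finset.mem_insert.mp (hX hx2)).resolve_left hx1
        apply bool_eq
        rw [← ho _ hX'S, hA _ (hX'S.trans (Finset.subset_insert _ _)), hA X hX]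
        conv_rhs => rw [← Finset.insert_erase hyX, Finset.coe_insert,
          linearIndepOn_insert (by simp)]
        refine ⟨fun hh => ⟨hh, fun hm => hyn ?_⟩, fun hh => hh.1⟩
        exact hspan (Submodule.span_mono (Set.image_mono (by exact_mod_cast hX'S)) hm)
      · rw [Finset.erase_eq_of_notMem hyX]
        refine (ho X fun x hx => (Finset.mem_insert.mp (hX hx)).resolve_left ?_).symm
        rintro rfl
        exact hyX hx
    · rw [if_neg hcase]
      have hyn : A y ∈ Submodule.span F (A '' (S : Set E)) := by
        have := not_not.mp ((not_congr hquery).mp hcase)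
        exact Submodule.span_mono (Set.image_mono (by exact_mod_cast hB0S)) this
      refine (hT2 o).2 ?_ X (Finset.mem_powerset.mpr hX)
      obtain ⟨D, hD, g, c, hgc⟩ := hl3 _ (repOn_restrict S h A fun X hX => by
        rw [← ho X hX, hA X (hX.trans (Finset.subset_insert _ _))])
      refine ⟨D, hD, fun gg hgg X hX => ?_⟩
      have hDx : ∀ x ∈ S, D x = (c x : F) • g (A x) := by
        intro x hx
        have h0 := hgc x
        simp only [if_pos hx] at h0
        exact h0
      refine hcand D o (g (A y)) ?_ ?_ gg hgg X (Finset.mem_powerset.mp hX)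
      · have h1 : g (A y) ∈ (Submodule.span F (A '' (S : Set E))).map g.toLinearMap :=
          ⟨A y, hyn, rfl⟩
        rw [Submodule.map_span] at h1
        refine (Submodule.span_le.mpr ?_) h1
        rintro _ ⟨_, ⟨x, hx, rfl⟩, rfl⟩
        have h2 : g (A x) = (((c x)⁻¹ : Fˣ) : F) • D x := by
          rw [hDx x (by exact_mod_cast hx), smul_smul]
          simp
        have h3 : g.toLinearMap (A x) = g (A x) := rfl
        rw [h3, h2]
        exact Submodule.smul_mem _ _ (Submodule.subset_span ⟨x, hx, rfl⟩)
      · intro X hX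
        rw [hA X hX]
        symm
        refine indep_scale g.toLinearMap g.injective A _ (Function.update c y 1) X ?_
        intro x hx
        by_cases hxy : x = y
        · subst hxy
          simp
        · rw [Function.update_of_ne hxy, Function.update_of_ne hxy]
          exact hDx x ((Finset.mem_insert.mp (hX hx)).resolve_left hxy)

theorem step_con [Fintype F] [Fintype E] [DecidableEq E] {p e : ℕ} (hp : p.Prime)
    (hq : Fintype.card F = p ^ e) (d : ℕ) (S : Finset E) (y : E) (hy : y ∉ S)
    (h : Finset E → Bool) :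
    ∃ T : Strat E (Finset E → Bool), ∀ (o : Finset E → Bool) (A : E → Fin d → F),
      (∀ X ⊆ insert y S, (o X = true ↔ LinearIndepOn F A (X : Set E))) →
      (∀ X ⊆ S, o (insert y X) = h X) → o {y} = true →
      T.cost o ≤ numClasses (fun D : E → Fin d → F => RepOn S h D) *
        (1 + S.card ^ ((p - 1) * e)) ∧
      ∀ X ⊆ insert y S, T.run o X = o X := by
  classical
  obtain ⟨l, hl1, hl2, hl3⟩ := exists_list (fun D : E → Fin d → F => RepOn S h D)
  have hrep : ∀ (o : Finset E → Bool) (A : E → Fin d → F),
      (∀ X ⊆ insert y S, (o X = true ↔ LinearIndepOn F A (X : Set E))) →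
      (∀ X ⊆ S, o (insert y X) = h X) → o {y} = true →
      ∃ D ∈ l, ∃ x : E → F, ∀ X ⊆ insert y S,
        (o X = true ↔ LinearIndepOn F (coext D y x) (X : Set E)) := by
    intro o A hA ho hoy
    have hLy : LinearIndepOn F A (({y} : Finset E) : Set E) := by
      rw [← hA {y} (by simp)]
      exact hoy
    obtain ⟨π, hπ1, hπ2⟩ := exists_contract A {y} hLy
    have hAy : A y ≠ 0 := by
      rw [Finset.coe_singleton] at hLy
      exact hLy.ne_zero (Set.mem_singleton y)
    obtain ⟨D, hD, g, c, hgc⟩ := hl3 _ (repOn_restrict S h (fun x => π (A x)) fun X hX => by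
      have hyX : y ∉ X := fun h => hy (hX h)
      rw [← ho X hX, hA _ (Finset.insert_subset_insert y hX), ← hπ2 X (by simpa using hyX),
        Finset.union_comm, ← Finset.insert_eq])
    have hDx : ∀ x ∈ S, D x = (c x : F) • g (π (A x)) := by
      intro x hx
      have h0 := hgc x
      simp only [if_pos hx] at h0
      exact h0
    obtain ⟨f, hf1, -⟩ := Submodule.exists_le_ker_of_notMem
      (p := (⊥ : Submodule F (Fin d → F))) (v := A y) (by simpa using hAy)
    set L : (Fin d → F) →ₗ[F] F := (f (A y))⁻¹ • f with hL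
    have hLAy : L (A y) = 1 := by
      simp only [hL, LinearMap.smul_apply, smul_eq_mul]
      exact inv_mul_cancel₀ hf1
    have hπy : π (A y) = 0 := by
      rw [← LinearMap.mem_ker, hπ1]
      exact Submodule.subset_span ⟨y, by simp, rfl⟩
    set θ : (Fin d → F) →ₗ[F] (Fin d → F) × F := (g.toLinearMap ∘ₗ π).prod L with hθ
    have hθi : Function.Injective θ := by
      rw [← LinearMap.ker_eq_bot, LinearMap.ker_eq_bot']
      intro v hv
      have hv1 : (g.toLinearMap ∘ₗ π) v = 0 := congrArg Prod.fst hv
      have hv2 : L v = 0 := congrArg Prod.snd hv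
      have h1 : π v = 0 := by
        apply g.injective
        rw [map_zero]
        exact hv1
      rw [← LinearMap.mem_ker, hπ1, Finset.coe_singleton, Set.image_singleton,
        Submodule.mem_span_singleton] at h1
      obtain ⟨t, rfl⟩ := h1
      rw [map_smul, hLAy, smul_eq_mul, mul_one] at hv2
      rw [hv2, zero_smul]
    refine ⟨D, hD, fun z => c z * L (A z), fun X hX => ?_⟩
    rw [hA X hX]
    symm
    refine indep_scale θ hθi A _ (Function.update c y 1) X ?_
    intro x hx
    by_cases hxy : x = y
    · subst hxy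
      simp [coext, hθ, hπy, hLAy]
    · rw [Function.update_of_ne hxy]
      have hxS := (Finset.mem_insert.mp (hX hx)).resolve_left hxy
      simp only [coext, if_neg hxy]
      rw [hDx x hxS]
      rfl
  by_cases hl : l = []
  · refine ⟨Strat.stop fun _ => true, fun o A hA ho hoy => ?_⟩
    exfalso
    obtain ⟨D, hD, -⟩ := hrep o A hA ho hoy
    rw [hl] at hD
    simp at hD
  choose Q cand hQ hcand using fun D : E → Fin d → F => coext_one hp hq S y hy D
  obtain ⟨T2, hT2⟩ := Strat.exists_combine (insert y S).powerset l hl Q (S.card ^ ((p - 1) * e))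
    (fun D _ => hQ D) cand
  have hlpos : 0 < l.length := List.length_pos_iff.mpr hl
  refine ⟨T2, fun o A hA ho hoy => ⟨?_, ?_⟩⟩
  · rw [← hl1]
    have h1 := (hT2 o).1
    have h2 : l.length * (1 + S.card ^ ((p - 1) * e)) =
        l.length * S.card ^ ((p - 1) * e) + l.length := by ring
    omega
  · intro X hX
    refine (hT2 o).2 ?_ X (Finset.mem_powerset.mpr hX)
    obtain ⟨D, hD, x, hx⟩ := hrep o A hA ho hoy
    exact ⟨D, hD, fun gg hgg X hX => hcand D o x hx gg hgg X (Finset.mem_powerset.mp hX)⟩

end Pool.Agent.Helper29.MR
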