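import Mathlib
import Pool.Agent.Helper29.MR.Step

/-!
MP_c023e2_lc: the number of oracle calls that are needed to find a representation over a finite
field, for every finite field, in terms of the numbers of inequivalent representations of the
members of a chain of minors.
-/

namespace Pool.Agent.Results.MP_c023e2_lc.ChainQueries

open Finset Pool.Agent.Helper29.MR

variable {F : Type} [Field F] {E : Type} {d n : ℕ}

/-- The vectors `A e`, `e` in `E`, represent the matroid `N`. -/
def Represents (A : E → Fin d → F) (N : Matroid E) : Prop :=
  ∀ X : Finset E, N.Indep (X : Set E) ↔ LinearIndepOn F A (X : Set E)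

/-- The elements in the first `i` positions of the ordering. -/
def lowSet [Fintype E] (σ : Fin n ≃ E) (i : ℕ) : Finset E :=
  univ.filter fun x => (σ.symm x : ℕ) < i

/-- The elements of `B` that are not in the first `i` positions of the ordering. -/
def highSet [Fintype E] (σ : Fin n ≃ E) (B : Finset E) (i : ℕ) : Finset E :=
  B.filter fun x => i ≤ (σ.symm x : ℕ)

/-- The minor of `M` on the first `i` elements: the other elements of `B` are contracted, the
remaining ones deleted. -/
def minorAt [Fintype E] (M : Matroid E) (σ : Fin n ≃ E) (B : Finset E) (i : ℕ) : Matroid E :=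
  (M.contract (highSet σ B i : Set E)).restrict (lowSet σ i : Set E)

/-- The number of projectively inequivalent representations of `N` by vectors of `F ^ d`. -/
noncomputable def numReps (F : Type) [Field F] (d : ℕ) (N : Matroid E) : ℕ :=
  numClasses fun A : E → Fin d → F => Represents A N

theorem minorAt_indep [Fintype E] [DecidableEq E] (M : Matroid E) (σ : Fin n ≃ E)
    (B : Finset E) (hB : M.Indep (B : Set E)) (i : ℕ) (X : Finset E) :
    (minorAt M σ B i).Indep (X : Set E) ↔
      X ⊆ lowSet σ i ∧ M.Indep ((X ∪ highSet σ B i : Finset E) : Set E) := by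
  have hH : M.Indep (highSet σ B i : Set E) :=
    hB.subset (by exact_mod_cast Finset.filter_subset _ _)
  rw [minorAt, Matroid.restrict_indep_iff, hH.contract_indep_iff, Finset.coe_union]
  constructor
  · rintro ⟨⟨_, h1⟩, h2⟩
    exact ⟨by exact_mod_cast h2, h1⟩
  · rintro ⟨h2, h1⟩
    refine ⟨⟨?_, h1⟩, by exact_mod_cast h2⟩
    rw [Finset.disjoint_coe, Finset.disjoint_left]
    intro x hx hx'
    have h3 := (Finset.mem_filter.mp (h2 hx)).2
    have h4 := (Finset.mem_filter.mp hx').2
    omega

theorem represents_iff [Fintype E] [DecidableEq E] (M : Matroid E) (σ : Fin n ≃ E)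
    (B : Finset E) (hB : M.Indep (B : Set E)) (i : ℕ) (O : Finset E → Bool)
    (hO : ∀ X, O X = true ↔ M.Indep (X : Set E)) (h : Finset E → Bool)
    (hh : ∀ X ⊆ lowSet σ i, h X = O (X ∪ highSet σ B i)) (A : E → Fin d → F) :
    RepOn (lowSet σ i) h A ↔ Represents A (minorAt M σ B i) := by
  constructor
  · rintro ⟨h1, h2⟩ X
    rw [minorAt_indep M σ B hB]
    by_cases hX : X ⊆ lowSet σ i
    · rw [and_iff_right hX, ← hO, ← hh X hX]
      exact h1 X hX
    · refine ⟨fun h => absurd h.1 hX, fun hi => ?_⟩
      exfalso
      obtain ⟨x, hx, hxn⟩ := Finset.not_subset.mp hX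
      exact hi.ne_zero (by exact_mod_cast hx) (h2 x hxn)
  · intro hR
    refine ⟨fun X hX => ?_, fun x hx => ?_⟩
    · rw [← hR X, minorAt_indep M σ B hB, and_iff_right hX, ← hO, ← hh X hX]
    · by_contra hne
      have h1 : LinearIndepOn F A (({x} : Finset E) : Set E) := by
        rw [Finset.coe_singleton, linearIndepOn_singleton_iff]
        exact hne
      rw [← hR {x}, minorAt_indep M σ B hB] at h1
      exact hx (h1.1 (by simp))

theorem numClasses_eq [Fintype E] [DecidableEq E] (M : Matroid E) (σ : Fin n ≃ E)
    (B : Finset E) (hB : M.Indep (B : Set E)) (i : ℕ) (O : Finset E → Bool)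
    (hO : ∀ X, O X = true ↔ M.Indep (X : Set E)) (h : Finset E → Bool)
    (hh : ∀ X ⊆ lowSet σ i, h X = O (X ∪ highSet σ B i)) :
    numClasses (fun A : E → Fin d → F => RepOn (lowSet σ i) h A) =
      numReps F d (minorAt M σ B i) := by
  have : (fun A : E → Fin d → F => RepOn (lowSet σ i) h A) =
      fun A : E → Fin d → F => Represents A (minorAt M σ B i) := by
    funext A
    exact propext (represents_iff M σ B hB i O hO h hh A)
  rw [this]
  rfl

theorem card_lowSet [Fintype E] (σ : Fin n ≃ E) (i : ℕ) (hi : i ≤ n) :
    (lowSet σ i).card = i := by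
  classical
  have : lowSet σ i = ((univ : Finset (Fin n)).filter fun j : Fin n => (j : ℕ) < i).map
      σ.toEmbedding := by
    ext x
    rw [lowSet, Finset.mem_filter, Finset.mem_map]
    constructor
    · rintro ⟨-, hx⟩
      exact ⟨σ.symm x, by simpa using hx, by simp⟩
    · rintro ⟨j, hj, rfl⟩
      simpa using (Finset.mem_filter.mp hj).2
  rw [this, Finset.card_map, Fin.card_filter_val_lt, min_eq_right hi]

/-- The chain of minors, from the bottom to the top. -/
theorem chain [Fintype F] [Fintype E] [DecidableEq E] {p e : ℕ} (hp : p.Prime)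
    (hq : Fintype.card F = p ^ e) (d : ℕ) (σ : Fin n ≃ E) (B : Finset E) :
    ∀ i, i ≤ n → ∃ T : Strat E (Finset E → Bool),
      ∀ (M : Matroid E) (O : Finset E → Bool),
        (∀ X : Finset E, O X = true ↔ M.Indep (X : Set E)) →
        (∃ A : E → Fin d → F, Represents A M) → M.Indep (B : Set E) →
        T.cost O ≤ ∑ j ∈ range i,
          numReps F d (minorAt M σ B j) * (1 + j ^ ((p - 1) * e)) ∧
        ∀ X ⊆ lowSet σ i, T.run O X = O (X ∪ highSet σ B i) := by
  intro i
  induction i with
  | zero =>
    intro _
    refine ⟨Strat.stop fun _ => true, fun M O hO _ hB => ⟨by simp [Strat.cost], ?_⟩⟩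
    intro X hX
    have h0 : lowSet σ 0 = ∅ := by simp [lowSet]
    rw [h0, Finset.subset_empty] at hX
    subst hX
    have h1 : (∅ : Finset E) ∪ highSet σ B 0 = B := by simp [highSet]
    rw [h1]
    exact ((hO B).mpr hB).symm
  | succ i ih =>
    intro hi
    obtain ⟨T, hT⟩ := ih (by omega)
    set y : E := σ ⟨i, by omega⟩ with hy
    have hyi : (σ.symm y : ℕ) = i := by simp [hy]
    have hys : y ∉ lowSet σ i := by
      intro h
      have := (Finset.mem_filter.mp h).2
      omega
    have hins : insert y (lowSet σ i) = lowSet σ (i + 1) := by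
      ext x
      rw [Finset.mem_insert, lowSet, lowSet, Finset.mem_filter, Finset.mem_filter]
      constructor
      · rintro (rfl | ⟨-, h⟩)
        · exact ⟨mem_univ _, by omega⟩
        · exact ⟨mem_univ _, by omega⟩
      · rintro ⟨-, h⟩
        by_cases hx : (σ.symm x : ℕ) = i
        · left
          rw [hy, ← Equiv.symm_apply_eq]
          exact Fin.ext hx
        · right
          exact ⟨mem_univ _, by omega⟩
    set C := highSet σ B (i + 1) with hC
    have hCB : C ⊆ B := Finset.filter_subset _ _
    have hlow_card : (lowSet σ i).card = i := card_lowSet σ i (by omega)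
    -- the high set at `i`
    have hhigh_mem : y ∈ B → highSet σ B i = insert y C := by
      intro hyB
      ext x
      rw [Finset.mem_insert, hC, highSet, highSet, Finset.mem_filter, Finset.mem_filter]
      constructor
      · rintro ⟨h1, h2⟩
        by_cases hx : (σ.symm x : ℕ) = i
        · left
          rw [hy, ← Equiv.symm_apply_eq]
          exact Fin.ext hx
        · right
          exact ⟨h1, by omega⟩
      · rintro (rfl | ⟨h1, h2⟩)
        · exact ⟨hyB, by omega⟩
        · exact ⟨h1, by omega⟩
    have hhigh_not : y ∉ B → highSet σ B i = C := by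
      intro hyB
      ext x
      rw [hC, highSet, highSet, Finset.mem_filter, Finset.mem_filter]
      constructor
      · rintro ⟨h1, h2⟩
        refine ⟨h1, ?_⟩
        by_contra hx
        have hx' : (σ.symm x : ℕ) = i := by omega
        apply hyB
        have : x = y := by
          rw [hy, ← Equiv.symm_apply_eq]
          exact Fin.ext hx'
        rwa [← this]
      · rintro ⟨h1, h2⟩
        exact ⟨h1, by omega⟩
    have hdisj : ∀ X ⊆ insert y (lowSet σ i), Disjoint X C := by
      intro X hX
      rw [Finset.disjoint_left]
      intro x hx hx'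
      have h1 := hX hx
      rw [hins] at h1
      have h3 := (Finset.mem_filter.mp h1).2
      have h4 := (Finset.mem_filter.mp hx').2
      omega
    -- the contraction of `C`
    have hcontr : ∀ (M : Matroid E) (O : Finset E → Bool),
        (∀ X : Finset E, O X = true ↔ M.Indep (X : Set E)) →
        (∃ A : E → Fin d → F, Represents A M) → M.Indep (B : Set E) →
        ∃ A' : E → Fin d → F, ∀ X ⊆ insert y (lowSet σ i),
          (O (X ∪ C) = true ↔ LinearIndepOn F A' (X : Set E)) := by
      rintro M O hO ⟨A, hA⟩ hB
      have hC' : LinearIndepOn F A (C : Set E) := by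
        rw [← hA C]
        exact hB.subset (by exact_mod_cast hCB)
      obtain ⟨π, -, hπ⟩ := exists_contract A C hC'
      refine ⟨fun x => π (A x), fun X hX => ?_⟩
      rw [hO, hA, hπ X (hdisj X hX)]
    by_cases hyB : y ∈ B
    · choose S hS using fun h => step_con (F := F) hp hq d (lowSet σ i) y hys h
      refine ⟨T.bind fun h => (S h).shift C, fun M O hO hM hB => ?_⟩
      obtain ⟨hT1, hT2⟩ := hT M O hO hM hB
      obtain ⟨A', hA'⟩ := hcontr M O hO hM hB
      have hH := hhigh_mem hyB
      obtain ⟨hS1, hS2⟩ := hS (T.run O) (fun X => O (X ∪ C)) A' hA' (by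
        intro X hX
        rw [hT2 X hX, hH]
        congr 1
        ext z
        simp only [Finset.mem_union, Finset.mem_insert]
        tauto) (by
        have : ({y} : Finset E) ∪ C = highSet σ B i := by rw [hH, Finset.insert_eq]
        rw [this, hO]
        exact hB.subset (by exact_mod_cast Finset.filter_subset _ _))
      constructor
      · rw [Strat.cost_bind, Strat.cost_shift, Finset.sum_range_succ]
        refine Nat.add_le_add hT1 (hS1.trans ?_)
        rw [numClasses_eq M σ B hB i O hO (T.run O) hT2, hlow_card]
      · intro X hX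
        rw [Strat.run_bind, Strat.run_shift]
        exact hS2 X (by rw [hins]; exact hX)
    · choose S hS using fun h => step_del (F := F) hp hq d (lowSet σ i) y hys h
      refine ⟨T.bind fun h => (S h).shift C, fun M O hO hM hB => ?_⟩
      obtain ⟨hT1, hT2⟩ := hT M O hO hM hB
      obtain ⟨A', hA'⟩ := hcontr M O hO hM hB
      have hH := hhigh_not hyB
      obtain ⟨hS1, hS2⟩ := hS (T.run O) (fun X => O (X ∪ C)) A' hA' (by
        intro X hX
        rw [hT2 X hX, hH])
      constructor
      · rw [Strat.cost_bind, Strat.cost_shift, Finset.sum_range_succ]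
        refine Nat.add_le_add hT1 (hS1.trans ?_)
        rw [numClasses_eq M σ B hB i O hO (T.run O) hT2, hlow_card]
      · intro X hX
        rw [Strat.run_bind, Strat.run_shift]
        exact hS2 X (by rw [hins]; exact hX)

/-- **Theorem.** Let `F` be a field with `p ^ e` elements. Let `P` be any adaptive procedure that
asks independence questions about a matroid on the `n`-element set `E` and returns an ordering
`σ` of `E` and a subset `B` of `E`. Then there is an adaptive procedure `T` which, for every
matroid `M` on `E` that is representable over `F` (by vectors with `d` coordinates) and for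
which the set `B` returned by `P` is independent, finds a representation of `M` over `F` with at
most `(questions of P) + ∑_{i < n} κ_i (1 + i ^ ((p - 1) e))` questions, where `κ_i` is the
number of projectively inequivalent `F`-representations of the minor of `M` on the first `i`
elements of the ordering, in which the later elements of `B` are contracted and the other later
elements are deleted. -/
theorem result (F : Type) [Field F] [Fintype F] (p e : ℕ) (hp : p.Prime)
    (hq : Fintype.card F = p ^ e) (n d : ℕ) (E : Type) [Fintype E] [DecidableEq E]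
    (P : Strat E ((Fin n ≃ E) × Finset E)) :
    ∃ T : Strat E (E → Fin d → F), ∀ (M : Matroid E) (O : Finset E → Bool),
      M.E = Set.univ → (∀ X : Finset E, O X = true ↔ M.Indep (X : Set E)) →
      (∃ A : E → Fin d → F, Represents A M) → M.Indep ((P.run O).2 : Set E) →
      Represents (T.run O) M ∧
      T.cost O ≤ P.cost O + ∑ i ∈ range n,
        numReps F d (minorAt M (P.run O).1 (P.run O).2 i) * (1 + i ^ ((p - 1) * e)) := by
  classical
  choose T hT using fun σB : (Fin n ≃ E) × Finset E =>
    chain (F := F) hp hq d σB.1 σB.2 n le_rfl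
  refine ⟨P.bind fun σB => (T σB).bind fun h => Strat.stop
    (if hex : ∃ A : E → Fin d → F, ∀ X : Finset E, h X = true ↔ LinearIndepOn F A (X : Set E)
      then hex.choose else fun _ => 0), fun M O _ hO hM hB => ?_⟩
  obtain ⟨h1, h2⟩ := hT (P.run O) M O hO hM hB
  have h3 : ∀ X : Finset E, (T (P.run O)).run O X = O X := by
    intro X
    have h4 : lowSet (P.run O).1 n = univ := by
      ext x
      simp [lowSet]
    have h5 : highSet (P.run O).1 (P.run O).2 n = ∅ := by
      rw [highSet, Finset.filter_eq_empty_iff]
      intro x _
      have := ((P.run O).1.symm x).2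
      omega
    rw [h2 X (by rw [h4]; exact subset_univ X), h5, Finset.union_empty]
  constructor
  · rw [Strat.run_bind, Strat.run_bind]
    have hex : ∃ A : E → Fin d → F, ∀ X : Finset E,
        (T (P.run O)).run O X = true ↔ LinearIndepOn F A (X : Set E) := by
      obtain ⟨A, hA⟩ := hM
      refine ⟨A, fun X => ?_⟩
      rw [h3 X, hO X]
      exact hA X
    simp only [Strat.run]
    rw [dif_pos hex]
    intro X
    rw [← hO X, ← h3 X]
    exact hex.choose_spec X
  · rw [Strat.cost_bind, Strat.cost_bind]
    simp only [Strat.cost, add_zero]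
    exact Nat.add_le_add_left h1 _

end Pool.Agent.Results.MP_c023e2_lc.ChainQueries
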